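import Mathlib
import Pool.Agent.H5.Goddyn.Defs
import Pool.Agent.H98.TC.Defs

set_option autoImplicit false

/-!
If a weight is the sum of two admissible weights, one of which has a faithful circuit cover, then it has
a removable circuit (MP_a46c6f_co).
-/

namespace Pool.Agent.H97.Sum

open SimpleGraph Pool.Agent.H5.Goddyn Pool.Agent.H98

variable {V : Type*}

lemma supp_adj (G : SimpleGraph V) (w : Sym2 V → ℕ) (u v : V) :
    (TC.support G w).Adj u v ↔ G.Adj u v ∧ 0 < w s(u, v) := by
  unfold TC.support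
  rw [fromEdgeSet_adj]
  constructor
  · rintro ⟨⟨h1, h2⟩, _⟩
    exact ⟨h1, h2⟩
  · rintro ⟨h1, h2⟩
    exact ⟨⟨h1, h2⟩, h1.ne⟩

open Classical in
lemma fs [Fintype V] (G : SimpleGraph V) (v : V) (f : V → ZMod 2) :
    (∑ᶠ u ∈ G.neighborSet v, f u) = ∑ u ∈ Finset.univ.filter (fun u => G.Adj v u), f u := by
  rw [finsum_mem_eq_sum_of_subset]
  · intro u hu
    simpa using hu.1
  · intro u hu
    simpa using hu

/-- the number of odd edges at `v` and the sum of the weights at `v` have the same parity -/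
lemma even_iff [Finite V] (G : SimpleGraph V) (w : Sym2 V → ℕ) (v : V) :
    Even {u | (TC.support G w).Adj v u ∧ Odd (w s(v, u))}.ncard ↔
      (∑ᶠ u ∈ G.neighborSet v, (w s(v, u) : ZMod 2)) = 0 := by
  classical
  have : Fintype V := Fintype.ofFinite V
  have h1 : {u | (TC.support G w).Adj v u ∧ Odd (w s(v, u))} =
      ((Finset.univ.filter fun u => G.Adj v u ∧ Odd (w s(v, u)) : Finset V) : Set V) := by
    ext u
    simp only [Set.mem_ofPred_eq, Finset.coe_filter, Finset.mem_univ, true_and, supp_adj]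
    constructor
    · rintro ⟨⟨a, _⟩, b⟩
      exact ⟨a, b⟩
    · rintro ⟨a, b⟩
      exact ⟨⟨a, b.pos⟩, b⟩
  rw [h1, Set.ncard_coe_finset]
  have h2 : (∑ᶠ u ∈ G.neighborSet v, (w s(v, u) : ZMod 2)) =
      ∑ u ∈ Finset.univ.filter (fun u => G.Adj v u), (w s(v, u) : ZMod 2) := by
    rw [finsum_mem_eq_sum_of_subset]
    · intro u hu
      simpa using hu.1
    · intro u hu
      simpa using hu
  rw [h2]
  have h3 : ∀ u, (w s(v, u) : ZMod 2) = if Odd (w s(v, u)) then 1 else 0 := by
    intro u
    split_ifs with h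
    · exact (ZMod.natCast_eq_one_iff_odd).2 h
    · rw [Nat.not_odd_iff_even] at h
      exact (ZMod.natCast_eq_zero_iff_even).2 h
  simp_rw [h3]
  rw [← Finset.sum_filter, Finset.filter_filter, Finset.sum_const, nsmul_eq_mul, mul_one]
  exact (ZMod.natCast_eq_zero_iff_even).symm

/-- a circuit has an even number of edges at every vertex -/
lemma circ_even [Finite V] (G : SimpleGraph V) (C : G.Subgraph) (hC : IsCircuit C) (v : V) :
    (∑ᶠ u ∈ G.neighborSet v, (open Classical in if s(v, u) ∈ C.edgeSet then (1 : ZMod 2) else 0)) =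
      0 := by
  classical
  have : Fintype V := Fintype.ofFinite V
  have h2 : (∑ᶠ u ∈ G.neighborSet v, (if s(v, u) ∈ C.edgeSet then (1 : ZMod 2) else 0)) =
      ∑ u ∈ Finset.univ.filter (fun u => C.Adj v u), (1 : ZMod 2) := by
    rw [finsum_mem_eq_sum_of_subset (t := Finset.univ.filter (fun u => G.Adj v u))]
    · rw [← Finset.sum_filter, Finset.filter_filter]
      apply Finset.sum_congr _ fun _ _ => rfl
      ext u
      simp only [Finset.mem_filter, Finset.mem_univ, true_and, Subgraph.mem_edgeSet]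
      exact ⟨fun h => h.2, fun h => ⟨h.adj_sub, h⟩⟩
    · intro u hu
      simpa using hu.1
    · intro u hu
      simpa using hu
  rw [h2, Finset.sum_const, nsmul_eq_mul, mul_one]
  have h3 : (Finset.univ.filter (fun u => C.Adj v u)).card = (C.neighborSet v).ncard := by
    rw [← Set.ncard_coe_finset]
    congr 1
    ext u
    simp
  rw [h3]
  by_cases hv : v ∈ C.verts
  · rw [hC.2 v hv]; decide
  · have : C.neighborSet v = ∅ := by
      rw [Set.eq_empty_iff_forall_notMem]
      intro u hu
      exact hv (C.edge_vert hu)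
    rw [this, Set.ncard_empty]; decide

/-- an edge of a circuit is not a bridge of a graph which contains the circuit -/
lemma not_bridge [Finite V] (G H : SimpleGraph V) (C : G.Subgraph) (hC : IsCircuit C)
    (hle : ∀ a b, C.Adj a b → H.Adj a b) {a b : V} (hab : C.Adj a b) : ¬ H.IsBridge s(a, b) := by
  have hfin : (C.spanningCoe).IsCycles := by
    intro v hv
    obtain ⟨u, hu⟩ := hv
    have : C.spanningCoe.neighborSet v = C.neighborSet v := by
      ext u
      simp
    rw [this]
    exact hC.2 v (C.edge_vert hu)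
  rw [isBridge_iff, not_not]
  have h1 := hfin.reachable_deleteEdges (v := a) (w := b) (by simpa using hab)
  refine h1.mono ?_
  intro x y hxy
  rw [deleteEdges_adj] at hxy ⊢
  exact ⟨hle x y (by simpa using hxy.1), hxy.2⟩

/-- **a cover of one summand gives a removable circuit** -/
theorem exists_removable [Finite V] (G : SimpleGraph V) (w w₁ w₂ : Sym2 V → ℕ)
    (hsum : ∀ e ∈ G.edgeSet, w e = w₁ e + w₂ e) (hne : ∃ e ∈ G.edgeSet, w₁ e ≠ 0)
    (h₂ : TC.Eulerian (TC.support G w₂) w₂) (b₂ : TC.Bridgeless (TC.support G w₂))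
    (hF : HasFaithfulCircuitCover G w₁) : ∃ C : G.Subgraph, TC.Removable G w C := by
  classical
  obtain ⟨k, 𝒞, hC, hcov⟩ := hF
  obtain ⟨e₀, he₀, hw₀⟩ := hne
  have hex : ∃ i₀, e₀ ∈ (𝒞 i₀).edgeSet := by
    rw [← hcov e₀ he₀] at hw₀
    obtain ⟨i, hi⟩ := Set.nonempty_of_ncard_ne_zero hw₀
    exact ⟨i, hi⟩
  obtain ⟨i₀, hi₀⟩ := hex
  set C := 𝒞 i₀ with hCdef
  set χ : Sym2 V → ℕ := fun e => if e ∈ C.edgeSet then 1 else 0 with hχ
  set w' : Sym2 V → ℕ := fun e => (w₁ e - χ e) + w₂ e with hw'
  have hle : ∀ e ∈ G.edgeSet, χ e ≤ w₁ e := by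
    intro e he
    rw [hχ]
    dsimp only
    split_ifs with h
    · rw [← hcov e he, Nat.one_le_iff_ne_zero]
      exact Set.ncard_ne_zero_of_mem (a := i₀) h
    · exact Nat.zero_le _
  have hpos : ∀ i, i ≠ i₀ → ∀ e ∈ (𝒞 i).edgeSet, 0 < w' e := by
    intro i hi e he
    have heG : e ∈ G.edgeSet := (𝒞 i).edgeSet_subset he
    have h1 : χ e < w₁ e := by
      rw [hχ]
      dsimp only
      rw [← hcov e heG]
      split_ifs with h
      · have h2 : ({i, i₀} : Set (Fin k)) ⊆ {i | e ∈ (𝒞 i).edgeSet} := by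
          intro j hj
          rcases hj with rfl | hj
          · exact he
          · rw [Set.mem_singleton_iff] at hj
            rw [hj]; exact h
        have h3 := Set.ncard_le_ncard h2 (Set.toFinite _)
        rw [Set.ncard_pair hi] at h3
        omega
      · rw [Nat.pos_iff_ne_zero]
        exact Set.ncard_ne_zero_of_mem (a := i) he
    rw [hw']
    dsimp only
    omega
  refine ⟨C, hC i₀, w', ?_, ?_, ?_⟩
  · intro e he
    have h1 := hle e he
    rw [hsum e he, hw']
    rw [hχ] at h1 ⊢
    dsimp only at h1 ⊢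
    omega
  · intro v
    rw [even_iff]
    have e2 := (even_iff G w₂ v).1 (h₂ v)
    have e1 : (∑ᶠ u ∈ G.neighborSet v, (w₁ s(v, u) : ZMod 2)) = 0 := by
      have h1 : ∀ u ∈ G.neighborSet v, (w₁ s(v, u) : ZMod 2) =
          ∑ i, (if s(v, u) ∈ (𝒞 i).edgeSet then (1 : ZMod 2) else 0) := by
        intro u hu
        rw [← hcov s(v, u) hu, ← Finset.sum_filter, Finset.sum_const, nsmul_eq_mul, mul_one]
        congr 1
        rw [← Set.ncard_coe_finset]
        congr 1
        ext i
        simp
      have : Fintype V := Fintype.ofFinite V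
      rw [finsum_mem_congr rfl h1, fs, Finset.sum_comm]
      apply Finset.sum_eq_zero
      intro i _
      have := circ_even G (𝒞 i) (hC i) v
      rw [fs] at this
      exact this
    have e3 : (∑ᶠ u ∈ G.neighborSet v, (χ s(v, u) : ZMod 2)) = 0 := by
      have h1 := circ_even G C (hC i₀) v
      have h2 : ∀ u ∈ G.neighborSet v, (χ s(v, u) : ZMod 2) =
          if s(v, u) ∈ C.edgeSet then (1 : ZMod 2) else 0 := by
        intro u _
        by_cases h : s(v, u) ∈ C.edgeSet
        · rw [hχ]; dsimp only; rw [if_pos h, if_pos h]; exact Nat.cast_one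
        · rw [hχ]; dsimp only; rw [if_neg h, if_neg h]; exact Nat.cast_zero
      rw [finsum_mem_congr rfl h2]
      exact h1
    have e4 : ∀ u ∈ G.neighborSet v, (w' s(v, u) : ZMod 2) =
        (w₁ s(v, u) : ZMod 2) + (χ s(v, u) : ZMod 2) + (w₂ s(v, u) : ZMod 2) := by
      intro u hu
      rw [hw']
      dsimp only
      rw [Nat.cast_add, Nat.cast_sub (hle s(v, u) hu)]
      rw [sub_eq_add_neg, ZMod.neg_eq_self_mod_two]
    rw [finsum_mem_congr rfl e4, finsum_mem_add_distrib (Set.toFinite _),
      finsum_mem_add_distrib (Set.toFinite _), e1, e2, e3]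
    simp
  · intro e he
    induction e using Sym2.ind with
    | _ a b =>
      rw [mem_edgeSet, supp_adj] at he
      obtain ⟨hG, hp⟩ := he
      by_cases hw2 : 0 < w₂ s(a, b)
      · have h1 := b₂ s(a, b) (by rw [mem_edgeSet, supp_adj]; exact ⟨hG, hw2⟩)
        rw [isBridge_iff, not_not] at h1 ⊢
        refine h1.mono ?_
        intro x y hxy
        rw [deleteEdges_adj, supp_adj] at hxy ⊢
        refine ⟨⟨hxy.1.1, ?_⟩, hxy.2⟩
        rw [hw']
        have := hxy.1.2
        dsimp only
        omega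
      · have h1 : χ s(a, b) < w₁ s(a, b) := by
          rw [hw'] at hp
          dsimp only at hp
          omega
        have h2 : ∃ i, i ≠ i₀ ∧ s(a, b) ∈ (𝒞 i).edgeSet := by
          by_contra hcon
          push Not at hcon
          rw [hχ, ← hcov s(a, b) hG] at h1
          dsimp only at h1
          have h3 : {i | s(a, b) ∈ (𝒞 i).edgeSet} ⊆ {i₀} := by
            intro i hi
            by_contra hne
            exact hcon i hne hi
          have h4 := Set.ncard_le_ncard h3 (Set.toFinite _)
          rw [Set.ncard_singleton] at h4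
          split_ifs at h1 with h5
          · omega
          · have h6 : {i | s(a, b) ∈ (𝒞 i).edgeSet}.ncard ≠ 0 := by omega
            obtain ⟨i, hi⟩ := Set.nonempty_of_ncard_ne_zero h6
            have := h3 hi
            rw [Set.mem_singleton_iff] at this
            rw [this] at hi
            exact h5 hi
        obtain ⟨i, hi, hab⟩ := h2
        exact not_bridge G _ (𝒞 i) (hC i) (fun x y hxy => by
          rw [supp_adj]
          exact ⟨hxy.adj_sub, hpos i hi s(x, y) hxy⟩) hab

end Pool.Agent.H97.Sum
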