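import Mathlib
import Pool.Agent.H97.Sum.Rem
import Pool.Agent.H64.Pent.Defs

set_option autoImplicit false

/-!
If the weight of a critical contra pair is the sum of two nonzero admissible weights, then neither of
the two weights has a faithful circuit cover (MP_a46c6f_co).
-/

namespace Pool.Agent.H97.Sum

open SimpleGraph Pool.Agent.H5.Goddyn Pool.Agent.H98 Pool.Agent.H64.Pent

variable {V : Type*}

/-- a nonzero weight with a faithful circuit cover has a removable circuit -/
theorem removable_of_cover [Finite V] (G : SimpleGraph V) (w : Sym2 V → ℕ)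
    (hne : ∃ e ∈ G.edgeSet, w e ≠ 0) (hF : HasFaithfulCircuitCover G w) :
    ∃ C : G.Subgraph, TC.Removable G w C := by
  refine exists_removable G w w (fun _ => 0) (fun e _ => (Nat.add_zero _).symm) hne ?_ ?_ hF
  · intro v
    rw [even_iff]
    simp
  · intro e he
    induction e using Sym2.ind with
    | _ a b =>
      rw [mem_edgeSet, supp_adj] at he
      exact absurd he.2 (lt_irrefl 0)

/-- a nonzero weight without a removable circuit is critical contra -/
theorem critical_of_no_removable [Finite V] (G : SimpleGraph V) (w : Sym2 V → ℕ)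
    (hne : ∃ e ∈ G.edgeSet, w e ≠ 0) (h : ∀ C : G.Subgraph, ¬ TC.Removable G w C) :
    IsCriticalContraPair G w :=
  ⟨fun hF => by
    obtain ⟨C, hC⟩ := removable_of_cover G w hne hF
    exact h C hC, h⟩

/-- **the summands of a critical contra weight have no faithful circuit cover** -/
theorem not_cover_of_sum [Finite V] (G : SimpleGraph V) (w : Sym2 V → ℕ)
    (hc : ∀ C : G.Subgraph, ¬ TC.Removable G w C) (w₁ w₂ : Sym2 V → ℕ)
    (hsum : ∀ e ∈ G.edgeSet, w e = w₁ e + w₂ e) (hne₁ : ∃ e ∈ G.edgeSet, w₁ e ≠ 0)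
    (hne₂ : ∃ e ∈ G.edgeSet, w₂ e ≠ 0)
    (h₁ : TC.Eulerian (TC.support G w₁) w₁) (b₁ : TC.Bridgeless (TC.support G w₁))
    (h₂ : TC.Eulerian (TC.support G w₂) w₂) (b₂ : TC.Bridgeless (TC.support G w₂)) :
    ¬ HasFaithfulCircuitCover G w₁ ∧ ¬ HasFaithfulCircuitCover G w₂ := by
  constructor
  · intro hF
    obtain ⟨C, hC⟩ := exists_removable G w w₁ w₂ hsum hne₁ h₂ b₂ hF
    exact hc C hC
  · intro hF
    obtain ⟨C, hC⟩ := exists_removable G w w₂ w₁
      (fun e he => by rw [hsum e he, Nat.add_comm]) hne₂ h₁ b₁ hF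
    exact hc C hC

end Pool.Agent.H97.Sum
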