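import Mathlib
import Pool.Agent.H97.Sum.Crit
import Pool.Agent.H62.Ind.Main
import Pool.Agent.H62.Ind.P3
import Pool.Agent.H77.P3.CodeSide
import Pool.Agent.H17.P3.TreeEnd

set_option autoImplicit false

namespace Pool.Agent.H97.Sum

open SimpleGraph Pool.Agent.H5.Goddyn Pool.Agent.H98.TC Pool.Agent.H64.Pent

theorem final {V : Type*} [Finite V] (G : SimpleGraph V) (M C₁ C₂ : G.Subgraph)
    (h : IsPermutationGraph G M C₁ C₂) :
    (IsCriticalContraPair G (wt M) →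
      IsPetersenPair G M ∨ ∃ w₁ w₂ : Sym2 V → ℕ, (∀ e ∈ G.edgeSet, wt M e = w₁ e + w₂ e) ∧
        (∃ e ∈ G.edgeSet, w₁ e ≠ 0) ∧ (∃ e ∈ G.edgeSet, w₂ e ≠ 0) ∧
        Eulerian (support G w₁) w₁ ∧ Bridgeless (support G w₁) ∧
        Eulerian (support G w₂) w₂ ∧ Bridgeless (support G w₂) ∧
        ¬ HasFaithfulCircuitCover G w₁ ∧ ¬ HasFaithfulCircuitCover G w₂) ∧
    (Pool.Agent.H57.Code.Indecomposable G (wt M) → IsPetersenPair G M) := by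
  have hT : Pool.Agent.H62.Ind.RootedTree :=
    Pool.Agent.H17.P3.hT_of Pool.Agent.H62.Ind.p3 Pool.Agent.H77.P3.codeSide
      Pool.Agent.H17.P3.tree_end
  have hI : Pool.Agent.H57.Code.Indecomposable G (wt M) → IsPetersenPair G M := fun hi =>
    Pool.Agent.H62.Ind.main_of hT G M C₁ C₂ h hi
  refine ⟨fun hcrit => ?_, hI⟩
  by_cases hi : Pool.Agent.H57.Code.Indecomposable G (wt M)
  · exact Or.inl (hI hi)
  · unfold Pool.Agent.H57.Code.Indecomposable at hi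
    rw [not_not] at hi
    obtain ⟨w₁, w₂, hs, n₁, n₂, e₁, b₁, e₂, b₂⟩ := hi
    obtain ⟨f₁, f₂⟩ := not_cover_of_sum G _ hcrit.2 w₁ w₂ hs n₁ n₂ e₁ b₁ e₂ b₂
    exact Or.inr ⟨w₁, w₂, hs, n₁, n₂, e₁, b₁, e₂, b₂, f₁, f₂⟩

end Pool.Agent.H97.Sum
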